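import Pool.Agent.Helper77.T2.Final
import Pool.Agent.Helper65.FN.Example

/-!
# MP_0fb3e0_gt: the answer to Q1 is negative

Q1 asks whether for every finite-volume hyperbolic manifold `M = H^n/Γ` of dimension `n ≥ 4` the
group `Γ` is virtually large if and only if `M` has a closed totally geodesic submanifold of
codimension 1. The theorem `result` is the negated form of Q1, with `n = 5` and `M` compact.

Definitions used by the statement (all are in `Pool/Agent/Helper77/T2/Hyp.lean`, except
`IsCocompact`, which is below), with their counterparts in the problem file: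

* `mink n` is the form `v0 w0 - v1 w1 - ... - vn wn` on `ℝ^(n+1)`; `Hyp n` is the sheet
  `mink n v v = 1`, `v 0 > 0`: the hyperboloid model of `H^n`;
* `IsomHyp n` is the group of invertible matrices which preserve `mink n` and map `Hyp n` to
  itself: `Isom(H^n)`;
* `hypVol n` is the hyperbolic volume on `Hyp n`: the image of the volume element
  `(1 - |w|^2)^(-(n+1)/2) dw` of the Beltrami-Klein ball under `kleinPt n`,
  `w ↦ (1, w)/√(1 - |w|^2)`;
* `IsLattice n Γ`: `Γ` is a discrete group of isometries and some measurable set of finite volume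
  meets every orbit, i.e. `H^n/Γ` has finite volume;
* `TorsionFree Γ`; so `H^n/Γ` is a hyperbolic manifold with fundamental group `Γ`;
* `VirtuallyLarge G`: a subgroup of finite index maps onto a non-abelian free group;
* for an isometry `g` of `H^(m+1)` let `H = g(H^m)` (`incl m` is the standard embedding of `H^m`
  in `H^(m+1)`); every totally geodesic hyperplane has this form. `hstab m Γ g` is the group of
  isometries of `H ≅ H^m` which are induced by the elements of the stabiliser `Γ_H`;
* `HasGeodesicHypersurface m Γ`: for some totally geodesic hyperplane `H` of `H^(m+1)` the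
  stabiliser `Γ_H` is a lattice in `Isom(H)`: this is the condition of the problem file that
  `H^(m+1)/Γ` has a closed totally geodesic submanifold of codimension 1.

`H77T2.Question` is Q1 itself, for all `n = m + 1 ≥ 4`; `not_question` below is its negation.
-/

namespace Pool.Agent.Results.MP_0fb3e0_gt.LargeNoHypersurface

open H77T2 Matrix

/-- `H^n/Γ` is compact: some compact subset of `Hyp n` meets every orbit of `Γ`. -/
def IsCocompact (n : ℕ) (Γ : Subgroup (GL (Fin (n + 1)) ℝ)) : Prop :=
  ∃ K : Set (Fin (n + 1) → ℝ), K ⊆ Hyp n ∧ IsCompact K ∧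
    ∀ v ∈ Hyp n, ∃ γ ∈ Γ, γ.1.mulVec v ∈ K

/-- the bounded part of the hyperboloid is compact -/
theorem isCompact_ball (R : ℝ) : IsCompact {v : Fin (5 + 1) → ℝ | v ∈ Hyp 5 ∧ v 0 ≤ R} := by
  apply Metric.isCompact_of_isClosed_isBounded
  · have h1 : {v : Fin (5 + 1) → ℝ | v ∈ Hyp 5 ∧ v 0 ≤ R} =
        {v | mink 5 v v = 1} ∩ {v | 0 ≤ v 0} ∩ {v | v 0 ≤ R} := by
      ext v
      constructor
      · rintro ⟨⟨h1, h2⟩, h3⟩
        exact ⟨⟨h1, h2.le⟩, h3⟩
      · rintro ⟨⟨h1, h2⟩, h3⟩
        refine ⟨⟨h1, lt_of_le_of_ne h2 fun h0 => ?_⟩, h3⟩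
        have h4 : mink 5 v v = 1 := h1
        unfold mink at h4
        rw [← h0] at h4
        have h5 : 0 ≤ ∑ i : Fin 5, v i.succ * v i.succ :=
          Finset.sum_nonneg fun i _ => mul_self_nonneg _
        linarith
    rw [h1]
    refine (IsClosed.inter ?_ ?_).inter ?_
    · exact isClosed_eq (by unfold mink; fun_prop) continuous_const
    · exact isClosed_le continuous_const (continuous_apply _)
    · exact isClosed_le (continuous_apply _) continuous_const
  · rw [isBounded_iff_forall_norm_le]
    refine ⟨R, ?_⟩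
    rintro v ⟨⟨h1, h2⟩, h3⟩
    rw [pi_norm_le_iff_of_nonneg (h2.le.trans h3)]
    intro i
    rw [Real.norm_eq_abs]
    refine le_trans ?_ h3
    refine Fin.cases ?_ (fun j => ?_) i
    · rw [abs_of_pos h2]
    · have h4 : v j.succ * v j.succ ≤ ∑ i : Fin 5, v i.succ * v i.succ :=
        Finset.single_le_sum (f := fun i : Fin 5 => v i.succ * v i.succ)
          (fun i _ => mul_self_nonneg _) (Finset.mem_univ j)
      unfold mink at h1
      apply abs_le_of_sq_le_sq
      · nlinarith
      · exact h2.le

/-- **There is a compact hyperbolic 5-manifold `H^5/Γ` with virtually large fundamental group and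
without closed totally geodesic submanifold of codimension 1.** -/
theorem result : ∃ Γ : Subgroup (GL (Fin (5 + 1)) ℝ),
    IsLattice 5 Γ ∧ IsCocompact 5 Γ ∧ TorsionFree Γ ∧ VirtuallyLarge Γ ∧
      ¬ HasGeodesicHypersurface 4 Γ := by
  obtain ⟨Γ, h1, h2, ⟨R, h3⟩, h4, h5⟩ := H77T2.exists_example
  refine ⟨Γ, h1, ⟨_, fun v hv => hv.1, isCompact_ball R, fun v hv => ?_⟩, h2, h4, h5⟩
  obtain ⟨γ, hγ, h6⟩ := h3 v hv
  exact ⟨γ, hγ, (h1.1 hγ).2 v hv, h6⟩

/-- Q1 has a negative answer. -/
theorem not_question : ¬ Question := fun h => by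
  obtain ⟨Γ, h1, -, h3, h4, h5⟩ := result
  exact h5 ((h 4 (by norm_num) Γ h1 h3).1 h4)

end Pool.Agent.Results.MP_0fb3e0_gt.LargeNoHypersurface
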